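import Pool.Agent.H28.SIG

set_option autoImplicit false

namespace Pool.Agent.Results.MP_d14146_co.SigL1

/-- Every finite connected graph on at least two vertices has an `ℓ_1`-embeddable SIG-metric. -/
theorem result (n : ℕ) (hn : 2 ≤ n) (G : SimpleGraph (Fin n)) (hG : G.Connected) :
    ∃ d : Fin n → Fin n → ℝ,
      (∀ i j, d i j = d j i) ∧ (∀ i j, 0 ≤ d i j) ∧ (∀ i j, d i j = 0 ↔ i = j) ∧
      (∀ i j k, d i k ≤ d i j + d j k) ∧
      (∃ r : Fin n → ℝ, (∀ i, IsLeast {t | ∃ j, j ≠ i ∧ t = d i j} (r i)) ∧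
        ∀ i j, i ≠ j → (G.Adj i j → d i j < r i + r j) ∧ (¬ G.Adj i j → r i + r j ≤ d i j)) ∧
      ∃ (m : ℕ) (X : Fin n → Fin m → ℝ), 1 ≤ m ∧ ∀ i j, ∑ k, |X i k - X j k| = d i j := by
  obtain ⟨O⟩ := Pool.Agent.H28.SIG.exists_ord G hG
  have hr : ∀ i, ∃ r, IsLeast {t | ∃ j, j ≠ i ∧ t = O.d i j} r := by
    intro i
    have : Nontrivial (Fin n) := Fin.nontrivial_iff_two_le.2 hn
    obtain ⟨j, hj, hmin⟩ := Finset.exists_min_image (Finset.univ.filter fun j => j ≠ i) (O.d i)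
      (by obtain ⟨j, hj⟩ := exists_ne i; exact ⟨j, by simpa using hj⟩)
    simp only [Finset.mem_filter, Finset.mem_univ, true_and] at hj hmin
    exact ⟨O.d i j, ⟨j, hj, rfl⟩, by rintro _ ⟨k, hk, rfl⟩; exact hmin k hk⟩
  choose r hr using hr
  refine ⟨O.d, O.d_comm, O.d_nonneg, fun i j => ⟨fun h => ?_, fun h => h ▸ O.d_self i⟩,
    fun i j k => ?_, ⟨r, hr, fun i j hij => ?_⟩, n * n, fun i k => O.X i (finProdFinEquiv.symm k),
    by nlinarith, fun i j => ?_⟩
  · by_contra hne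
    exact (O.d_pos hne).ne' h
  · unfold Pool.Agent.H28.SIG.Ord.d
    rw [← Finset.sum_add_distrib]
    exact Finset.sum_le_sum fun t _ => abs_sub_le _ _ _
  · rcases lt_or_gt_of_ne (O.inj.ne hij) with h | h
    · exact O.main r hr h
    · rw [O.d_comm, add_comm, G.adj_comm]
      exact O.main r hr h
  · exact finProdFinEquiv.symm.sum_comp fun k => |O.X i k - O.X j k|

end Pool.Agent.Results.MP_d14146_co.SigL1
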